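import Pool.Agent.H758Z.Cone

namespace Pool.Agent.Results.MP_ed4848_gt.NonMetrizable

/-- There is a compact Hausdorff space `K` of countable tightness such that for every nonempty
index set `κ` some continuous map `ℝ^κ → K` has a non-metrizable image. -/
theorem result : ∃ (K : Type) (_ : TopologicalSpace K) (_ : CompactSpace K) (_ : T2Space K),
    (∀ (A : Set K) (x : K), x ∈ closure A → ∃ C : Set K, C ⊆ A ∧ C.Countable ∧ x ∈ closure C) ∧
    ∀ (κ : Type) [Nonempty κ], ∃ φ : (κ → ℝ) → K, Continuous φ ∧
      ¬ TopologicalSpace.MetrizableSpace (Set.range φ) :=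
  Pool.Agent.H758Z.Cone.main

end Pool.Agent.Results.MP_ed4848_gt.NonMetrizable
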